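import Pool.Agent.WAT.T

/-!
# WAT: E (extension of the domain above `n` chains), by helper58
-/

set_option autoImplicit false
set_option linter.unusedSectionVars false

universe u

namespace Pool.Agent.WAT

variable {T : Type u} [PartialOrder T]

namespace E_

/-- the largest colour -/
noncomputable def mx (u : T →₀ ℕ) : ℕ := u.support.sup u

theorem le_mx (u : T →₀ ℕ) (x : T) : u x ≤ mx u := by
  by_cases h : u x = 0
  · rw [h]; exact Nat.zero_le _
  · exact Finset.le_sup (f := u) (by simpa using h)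

theorem mx_le {u : T →₀ ℕ} {m : ℕ} (h : ∀ x, u x ≤ m) : mx u ≤ m :=
  Finset.sup_le fun x _ => h x

theorem mx_add_le {u : T →₀ ℕ} {c w : ℕ} (x₀ : T) (h : ∀ x, u x + c ≤ w) : mx u + c ≤ w := by
  have h0 := h x₀
  have h1 : mx u ≤ w - c := mx_le fun x => by have := h x; omega
  omega

/-- a path which is good for `U` -/
theorem br {n : ℕ} {p : Cond T} (hp : Lv n p) {σ : List ℕ} (hσ : Vd p.k σ) {U : Set T}
    (hU : Wd (n + σ.length) U) (m : ℕ) : ∃ τ : List ℕ, τ.length = m ∧ Vd p.k (τ ++ σ) ∧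
      Good (p.l σ) (p.l (τ ++ σ)) U (n + σ.length) := by
  induction m with
  | zero => exact ⟨[], rfl, hσ, fun z _ h1 h2 => absurd h1 h2⟩
  | succ m ih =>
    obtain ⟨τ, h1, h2, h3⟩ := ih
    obtain ⟨j, hj, hg⟩ := hp (τ ++ σ) h2 U (Wd_mono hU le_rfl (by simp))
    refine ⟨j :: τ, by simp [h1], ⟨hj, h2⟩, ?_⟩
    exact Good_trans h3 (p.ext_suffix h2 (List.suffix_append _ _)) (p.mono j _ ⟨hj, h2⟩) hg
      (by simp)

/-- descendants at relative depth `m` -/
def desc (k : List ℕ → ℕ) (σ : List ℕ) : ℕ → List (List ℕ)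
  | 0 => [σ]
  | m + 1 => (desc k σ m).flatMap fun τ => (List.range (k τ)).map fun j => j :: τ

theorem mem_desc {k : List ℕ → ℕ} {σ : List ℕ} (hσ : Vd k σ) (m : ℕ) (τ : List ℕ) :
    τ ∈ desc k σ m ↔ ∃ ρ : List ℕ, ρ.length = m ∧ τ = ρ ++ σ ∧ Vd k τ := by
  induction m generalizing τ with
  | zero =>
    simp only [desc, List.mem_singleton]
    constructor
    · rintro rfl; exact ⟨[], rfl, rfl, hσ⟩
    · rintro ⟨ρ, h1, h2, _⟩
      rw [List.length_eq_zero_iff] at h1
      rw [h2, h1]; rfl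
  | succ m ih =>
    simp only [desc, List.mem_flatMap, List.mem_map, List.mem_range]
    constructor
    · rintro ⟨τ', h1, j, h2, rfl⟩
      obtain ⟨ρ, h3, rfl, h4⟩ := (ih τ').1 h1
      exact ⟨j :: ρ, by simp [h3], rfl, h2, h4⟩
    · rintro ⟨ρ, h1, rfl, h3⟩
      cases ρ with
      | nil => simp at h1
      | cons j ρ =>
        refine ⟨ρ ++ σ, (ih _).2 ⟨ρ, by simpa using h1, rfl, h3.2⟩, j, h3.1, rfl⟩

open Classical in
/-- colour one more node -/
noncomputable def nx (o : Option T) (v : T →₀ ℕ) (γ : ℕ) : T →₀ ℕ :=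
  match o with
  | none => v
  | some a => if v a = 0 then v + Finsupp.single a γ else v

theorem nx_old {o : Option T} {v : T →₀ ℕ} {γ : ℕ} {z : T} (hz : v z ≠ 0) : nx o v γ z = v z := by
  classical
  unfold nx
  cases o with
  | none => rfl
  | some a =>
    dsimp only
    split_ifs with h
    · have : a ≠ z := by rintro rfl; exact hz h
      simp [this]
    · rfl

theorem nx_new {o : Option T} {v : T →₀ ℕ} {γ : ℕ} {z : T} (hz : nx o v γ z ≠ 0)
    (h0 : v z = 0) : o = some z ∧ nx o v γ z = γ := by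
  classical
  unfold nx at *
  cases o with
  | none => exact absurd h0 hz
  | some a =>
    dsimp only at *
    split_ifs at * with h
    · by_cases haz : a = z
      · subst haz; simp [h0]
      · exfalso; apply hz; simp [haz, h0]
    · exact absurd h0 hz

theorem nx_some {v : T →₀ ℕ} {γ : ℕ} (hγ : γ ≠ 0) (a : T) : nx (some a) v γ a ≠ 0 := by
  classical
  unfold nx
  dsimp only
  split_ifs with h
  · simp [h, hγ]
  · exact h

theorem nx_le {o : Option T} {v : T →₀ ℕ} {γ m : ℕ} (h : ∀ z, v z ≤ m) (hγ : γ ≤ m) (z : T) :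
    nx o v γ z ≤ m := by
  by_cases h0 : v z = 0
  · by_cases h1 : nx o v γ z = 0
    · rw [h1]; exact Nat.zero_le _
    · rw [(nx_new h1 h0).2]; exact hγ
  · rw [nx_old h0]; exact h z

theorem nx_card {o : Option T} {v : T →₀ ℕ} {γ : ℕ} :
    (nx o v γ).support.card ≤ v.support.card + 1 := by
  classical
  cases o with
  | none => exact Nat.le_succ _
  | some a =>
    refine le_trans (Finset.card_le_card (t := insert a v.support) ?_) (Finset.card_insert_le _ _)
    intro z hz
    rw [Finsupp.mem_support_iff] at hz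
    by_cases h0 : v z = 0
    · have := (nx_new hz h0).1
      simp at this
      simp [this]
    · simp [h0]

section build

variable (p : Cond T) (e : ℕ → Option T) (n c : ℕ) (U : Set T) (τ₀ : List ℕ)

/-- the new colour -/
noncomputable def ga (i : ℕ) (s : List ℕ × (T →₀ ℕ)) : ℕ := mx (p.l s.1) + mx s.2 + i + c + 1

/-- the new colouring -/
noncomputable def nv (i : ℕ) (s : List ℕ × (T →₀ ℕ)) : T →₀ ℕ := nx (e i) s.2 (ga p c i s)

/-- the controlled set -/
def ct (i : ℕ) (s : List ℕ × (T →₀ ℕ)) : Set T := U ∪ {z | ∃ a ∈ (nv p e c i s).support, z < a}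

open Classical in
/-- the children -/
noncomputable def ch (i : ℕ) (s : List ℕ × (T →₀ ℕ)) : List (List ℕ) :=
  (desc p.k s.1 (ga p c i s + 2 * i + n + c + 4)).filter fun τ' =>
    Good (p.l s.1) (p.l τ') (ct p e c U i s) s.1.length

/-- the states -/
noncomputable def st : List ℕ → List ℕ × (T →₀ ℕ)
  | [] => (τ₀, 0)
  | j :: σ => ((ch p e n c U σ.length (st σ)).getD j (st σ).1, nv p e c σ.length (st σ))

/-- the number of children -/
noncomputable def kk (σ : List ℕ) : ℕ := (ch p e n c U σ.length (st p e n c U τ₀ σ)).length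

/-- the labels -/
noncomputable def ll (σ : List ℕ) : T →₀ ℕ :=
  p.l (st p e n c U τ₀ σ).1 + (st p e n c U τ₀ σ).2

/-- the invariants -/
structure Jn (C : Set T) (i : ℕ) (s : List ℕ × (T →₀ ℕ)) : Prop where
  vd : Vd p.k s.1
  len : mx s.2 + 2 * i + n + c + 2 ≤ s.1.length
  inC : ∀ a, s.2 a ≠ 0 → a ∈ C
  inj : ∀ a a', s.2 a ≠ 0 → s.2 a = s.2 a' → a = a'
  avo : ∀ a z, s.2 a ≠ 0 → z < a → p.l s.1 z ≠ 0 → p.l s.1 z ≠ s.2 a
  don : ∀ j < i, ∀ a, e j = some a → s.2 a ≠ 0
  crd : s.2.support.card ≤ i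
  big : ∀ z ∈ U, p.l [] z = 0 → p.l s.1 z ≠ 0 → c ≤ p.l s.1 z
  bv : ∀ z, s.2 z ≠ 0 → c ≤ s.2 z

variable {p e n c U τ₀}

theorem mem_ch {i : ℕ} {s : List ℕ × (T →₀ ℕ)} (hs : Vd p.k s.1) {τ' : List ℕ} :
    τ' ∈ ch p e n c U i s ↔ (∃ ρ : List ℕ, ρ.length = ga p c i s + 2 * i + n + c + 4 ∧
      τ' = ρ ++ s.1 ∧ Vd p.k τ') ∧ Good (p.l s.1) (p.l τ') (ct p e c U i s) s.1.length := by
  classical
  unfold ch
  rw [List.mem_filter, mem_desc hs, decide_eq_true_iff]

theorem Jn_step {C : Set T} (heC : ∀ i a, e i = some a → a ∈ C) {i : ℕ}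
    {s : List ℕ × (T →₀ ℕ)} (hs : Jn p e n c U C i s) {τ' : List ℕ}
    (h : τ' ∈ ch p e n c U i s) : Jn p e n c U C (i + 1) (τ', nv p e c i s) := by
  obtain ⟨⟨ρ, hρ, rfl, hv⟩, hg⟩ := (mem_ch hs.vd).1 h
  have hga : ga p c i s = mx (p.l s.1) + mx s.2 + i + c + 1 := rfl
  have hga0 : ga p c i s ≠ 0 := by omega
  have hle : ∀ z, nv p e c i s z ≤ ga p c i s :=
    nx_le (fun z => le_trans (le_mx _ z) (by omega)) le_rfl
  have hex : Ex (p.l s.1) (p.l (ρ ++ s.1)) := p.ext_suffix hv (List.suffix_append _ _)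
  have hlen := hs.len
  refine ⟨hv, ?_, ?_, ?_, ?_, ?_, ?_, ?_, ?_⟩
  · have := mx_le hle
    simp only [List.length_append]
    omega
  · intro a ha
    by_cases h0 : s.2 a = 0
    · exact heC i a (nx_new ha h0).1
    · exact hs.inC a h0
  · intro a a' ha haa
    change nv p e c i s a ≠ 0 at ha
    change nv p e c i s a = nv p e c i s a' at haa
    have ha' : nv p e c i s a' ≠ 0 := by rw [← haa]; exact ha
    have hm := le_mx s.2 a
    have hm' := le_mx s.2 a'
    by_cases h0 : s.2 a = 0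
    · obtain ⟨h1, h2⟩ := nx_new ha h0
      change nv p e c i s a = ga p c i s at h2
      by_cases h0' : s.2 a' = 0
      · obtain ⟨h3, _⟩ := nx_new ha' h0'
        rw [h1] at h3
        exact Option.some.inj h3
      · have h3 : nv p e c i s a' = s.2 a' := nx_old h0'
        omega
    · have h2 : nv p e c i s a = s.2 a := nx_old h0
      by_cases h0' : s.2 a' = 0
      · obtain ⟨_, h3⟩ := nx_new ha' h0'
        change nv p e c i s a' = ga p c i s at h3
        omega
      · have h3 : nv p e c i s a' = s.2 a' := nx_old h0'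
        exact hs.inj a a' h0 (by omega)
  · intro a z ha hz hl
    change nv p e c i s a ≠ 0 at ha
    change p.l (ρ ++ s.1) z ≠ nv p e c i s a
    have h1 := hle a
    by_cases h0 : p.l s.1 z = 0
    · have h2 := hg z (Or.inr ⟨a, by simpa using ha, hz⟩) h0 hl
      have h3 := mx_add_le z h2
      change p.l (ρ ++ s.1) z ≠ 0 at hl
      omega
    · rw [hex z h0]
      by_cases h3 : s.2 a = 0
      · have h4 : nv p e c i s a = ga p c i s := (nx_new ha h3).2
        have := le_mx (p.l s.1) z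
        omega
      · have h4 : nv p e c i s a = s.2 a := nx_old h3
        rw [h4]
        exact hs.avo a z h3 hz h0
  · intro j hj a ha
    change nv p e c i s a ≠ 0
    rcases Nat.lt_succ_iff_lt_or_eq.1 hj with h1 | rfl
    · have h2 := hs.don j h1 a ha
      have h3 : nv p e c i s a = s.2 a := nx_old h2
      rw [h3]; exact h2
    · unfold nv
      rw [ha]
      exact nx_some hga0 a
  · exact le_trans nx_card (Nat.succ_le_succ hs.crd)
  · intro z hz h1 h2
    change p.l (ρ ++ s.1) z ≠ 0 at h2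
    change c ≤ p.l (ρ ++ s.1) z
    by_cases h0 : p.l s.1 z = 0
    · have h3 := hg z (Or.inl hz) h0 h2 z
      omega
    · rw [hex z h0]
      exact hs.big z hz h1 h0
  · intro z hz
    change nv p e c i s z ≠ 0 at hz
    change c ≤ nv p e c i s z
    by_cases h0 : s.2 z = 0
    · have h4 : nv p e c i s z = ga p c i s := (nx_new hz h0).2
      omega
    · have h4 : nv p e c i s z = s.2 z := nx_old h0
      rw [h4]; exact hs.bv z h0

theorem st_cons {j : ℕ} {σ : List ℕ} (h : j < kk p e n c U τ₀ σ) :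
    st p e n c U τ₀ (j :: σ) = ((ch p e n c U σ.length (st p e n c U τ₀ σ))[j]'h,
      nv p e c σ.length (st p e n c U τ₀ σ)) := by
  have h' : j < (ch p e n c U σ.length (st p e n c U τ₀ σ)).length := h
  rw [st, List.getD_eq_getElem _ _ h']
  rfl

theorem Jn_all {C : Set T} (heC : ∀ i a, e i = some a → a ∈ C)
    (h0 : Jn p e n c U C 0 (τ₀, 0)) : ∀ σ : List ℕ, Vd (kk p e n c U τ₀) σ →
      Jn p e n c U C σ.length (st p e n c U τ₀ σ)
  | [], _ => h0
  | j :: σ, h => by
    rw [st_cons h.1]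
    exact Jn_step heC (Jn_all heC h0 σ h.2) (List.getElem_mem _)

theorem exists_ch (hT : ∀ t : T, IsChain (· ≤ ·) {s | s < t}) (hU : Wd n U) {C : Set T} {i : ℕ}
    {s : List ℕ × (T →₀ ℕ)} (hs : Jn p e n c U C i s) {W : Set T} (hW : Wd i W) :
    ∃ τ' ∈ ch p e n c U i s, Good (p.l s.1) (p.l τ') W s.1.length := by
  have h1 : Wd (i + (n + (nv p e c i s).support.card)) (W ∪ ct p e c U i s) :=
    Wd_union hW (Wd_union hU (Wd_finset hT _))
  have h2 : (nv p e c i s).support.card ≤ i + 1 := le_trans nx_card (Nat.succ_le_succ hs.crd)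
  have hlen := hs.len
  obtain ⟨τ, h3, h4, h5⟩ := br (Lv_zero p) hs.vd
    (Wd_mono h1 le_rfl (by omega) : Wd (0 + s.1.length) _)
    (ga p c i s + 2 * i + n + c + 4)
  rw [zero_add] at h5
  exact ⟨τ ++ s.1, (mem_ch hs.vd).2 ⟨⟨τ, h3, rfl, h4⟩,
    Good_anti h5 Set.subset_union_right le_rfl⟩, Good_anti h5 Set.subset_union_left le_rfl⟩

end build

end E_

open E_ in
theorem p_E : T_E.{u} := by
  classical
  intro T _ hT n p hp U hU B hB
  -- the new nodes
  set C : Set T := {s | (∃ b ∈ B, s ≤ b) ∧ s ∉ Dm p} with hC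
  have hCc : C.Countable := by
    have h1 : C ⊆ ⋃ b ∈ B, insert b {s | s < b} := by
      rintro s ⟨⟨b, hb, hs⟩, _⟩
      refine Set.mem_iUnion₂.2 ⟨b, hb, ?_⟩
      rcases hs.eq_or_lt with rfl | h
      · exact Set.mem_insert _ _
      · exact Set.mem_insert_of_mem _ h
    exact (hB.biUnion fun b _ => (hT.ctb _ (hT.pred b)).insert b).mono h1
  obtain ⟨e, he1, he2⟩ : ∃ e : ℕ → Option T, (∀ i a, e i = some a → a ∈ C) ∧
      ∀ a ∈ C, ∃ i, e i = some a := by
    obtain ⟨f, hf⟩ := Set.countable_iff_exists_injOn.1 hCc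
    refine ⟨fun i => if h : ∃ a ∈ C, f a = i then some h.choose else none, ?_, ?_⟩
    · intro i a h
      dsimp only at h
      split_ifs at h with h1
      obtain rfl := Option.some.inj h
      exact h1.choose_spec.1
    · intro a ha
      have h1 : ∃ a' ∈ C, f a' = f a := ⟨a, ha, rfl⟩
      refine ⟨f a, ?_⟩
      dsimp only
      rw [dif_pos h1]
      exact congrArg some (hf h1.choose_spec.1 ha h1.choose_spec.2)
  set c : ℕ := mx (p.l []) + n with hc
  obtain ⟨τ₀', hl, hv, hg⟩ := br hp (σ := []) trivial (U := U) (by simpa using hU) (n + c + 2)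
  rw [List.append_nil] at hv hg
  set τ₀ := τ₀' with hτ₀
  have h0 : Jn p e n c U C 0 (τ₀, 0) := by
    refine ⟨hv, ?_, ?_, ?_, ?_, ?_, ?_, ?_, ?_⟩
    · have : mx (0 : T →₀ ℕ) = 0 := by simp [mx]
      simp only [this]; omega
    · intro a ha; simp at ha
    · intro a a' ha; simp at ha
    · intro a z ha; simp at ha
    · intro j hj; omega
    · simp
    · intro z hz h1 h2
      have h3 := mx_add_le z (hg z hz h1 h2)
      simp at h3
      exact h3
    · intro z hz; simp at hz
  have hJ := Jn_all he1 h0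
  have hdisj : ∀ σ, Vd (kk p e n c U τ₀) σ → ∀ z, p.l (st p e n c U τ₀ σ).1 z ≠ 0 →
      (st p e n c U τ₀ σ).2 z = 0 := by
    intro σ hσ z hz
    by_contra h1
    exact ((hJ σ hσ).inC z h1).2 ⟨_, (hJ σ hσ).vd, hz⟩
  have hstep : ∀ j σ, Vd (kk p e n c U τ₀) (j :: σ) →
      (∃ ρ, (st p e n c U τ₀ (j :: σ)).1 = ρ ++ (st p e n c U τ₀ σ).1) ∧
      (st p e n c U τ₀ (j :: σ)).2 = nv p e c σ.length (st p e n c U τ₀ σ) := by
    intro j σ h
    rw [st_cons h.1]
    refine ⟨?_, rfl⟩
    obtain ⟨⟨ρ, _, h2, _⟩, _⟩ := (mem_ch (hJ σ h.2).vd).1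
      (List.getElem_mem (l := ch p e n c U σ.length (st p e n c U τ₀ σ)) h.1)
    exact ⟨ρ, h2⟩
  have hlen : ∀ σ, Vd (kk p e n c U τ₀) σ → σ.length ≤ (st p e n c U τ₀ σ).1.length := by
    intro σ hσ
    have := (hJ σ hσ).len
    omega
  have hev1 : ∀ y ∈ Dm p, ∃ i, ∀ τ, Vd (kk p e n c U τ₀) τ → i ≤ τ.length →
      ll p e n c U τ₀ τ y ≠ 0 := by
    intro y hy
    obtain ⟨i, hi⟩ := dm_dom p hy le_rfl
    refine ⟨i, fun τ hτ hl => ?_⟩
    have h1 := hi _ (hJ τ hτ).vd (le_trans hl (hlen τ hτ))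
    simp only [ll, Finsupp.add_apply]
    omega
  have hev2 : ∀ y ∈ C, ∃ i, ∀ τ, Vd (kk p e n c U τ₀) τ → i ≤ τ.length →
      ll p e n c U τ₀ τ y ≠ 0 := by
    intro y hy
    obtain ⟨i, hi⟩ := he2 y hy
    refine ⟨i + 1, fun τ hτ hl => ?_⟩
    have h1 := (hJ τ hτ).don i hl y hi
    simp only [ll, Finsupp.add_apply]
    omega
  have hev3 : ∀ b ∈ B, ∀ y, y ≤ b → ∃ i, ∀ τ, Vd (kk p e n c U τ₀) τ → i ≤ τ.length →
      ll p e n c U τ₀ τ y ≠ 0 := by
    intro b hb y hy
    by_cases h : y ∈ Dm p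
    · exact hev1 y h
    · exact hev2 y ⟨⟨b, hb, hy⟩, h⟩
  let q : Cond T :=
    { k := kk p e n c U τ₀
      l := ll p e n c U τ₀
      mono := by
        intro j σ h z hz
        obtain ⟨⟨ρ, h1⟩, h2⟩ := hstep j σ h
        have hex : Ex (p.l (st p e n c U τ₀ σ).1) (p.l (st p e n c U τ₀ (j :: σ)).1) := by
          rw [h1]
          exact p.ext_suffix (by rw [← h1]; exact (hJ _ h).vd) (List.suffix_append _ _)
        simp only [ll, Finsupp.add_apply] at hz ⊢
        by_cases h3 : p.l (st p e n c U τ₀ σ).1 z = 0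
        · have h4 : (st p e n c U τ₀ σ).2 z ≠ 0 := by omega
          have h5 : (st p e n c U τ₀ (j :: σ)).2 z = (st p e n c U τ₀ σ).2 z := by
            rw [h2]; exact nx_old h4
          have h6 : p.l (st p e n c U τ₀ (j :: σ)).1 z = 0 := by
            by_contra h6
            have := hdisj _ h z h6
            omega
          rw [h5, h6, h3]
        · have h4 := hex z h3
          have h5 := hdisj _ h z (by rw [h4]; exact h3)
          have h6 := hdisj _ h.2 z h3
          rw [h4, h5, h6]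
      spec := by
        intro σ hσ z z' hzz hz hz'
        have hd := hdisj σ hσ z
        have hd' := hdisj σ hσ z'
        have J := hJ σ hσ
        simp only [ll, Finsupp.add_apply] at hz hz' ⊢
        by_cases h1 : p.l (st p e n c U τ₀ σ).1 z = 0
        · have h2 : (st p e n c U τ₀ σ).2 z ≠ 0 := by omega
          by_cases h3 : p.l (st p e n c U τ₀ σ).1 z' = 0
          · have h4 : (st p e n c U τ₀ σ).2 z' ≠ 0 := by omega
            intro h5
            exact hzz.ne (J.inj z z' h2 (by omega))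
          · exfalso
            exact (J.inC z h2).2 (dm_lower p ⟨_, J.vd, h3⟩ hzz.le)
        · by_cases h3 : p.l (st p e n c U τ₀ σ).1 z' = 0
          · have h4 : (st p e n c U τ₀ σ).2 z' ≠ 0 := by omega
            have h5 := J.avo z' z h4 hzz h1
            have h6 := hd h1
            omega
          · have h5 := p.spec _ J.vd z z' hzz h1 h3
            have h6 := hd h1
            have h7 := hd' h3
            omega
      nor := by
        intro σ hσ W hW
        have J := hJ σ hσ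
        obtain ⟨τ', h1, h2⟩ := exists_ch hT.pred hU J hW
        obtain ⟨j, hj, h3⟩ := List.mem_iff_getElem.1 h1
        refine ⟨j, hj, ?_⟩
        have h4 := st_cons (p := p) (e := e) (n := n) (c := c) (U := U) (τ₀ := τ₀)
          (j := j) (σ := σ) hj
        rw [h3] at h4
        intro z hz h5 h6 x
        have hlen' := J.len
        have hx := le_mx (p.l (st p e n c U τ₀ σ).1) x
        have hx' := le_mx (st p e n c U τ₀ σ).2 x
        simp only [ll, Finsupp.add_apply, h4] at h5 h6 ⊢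
        have hga : ga p c σ.length (st p e n c U τ₀ σ) =
          mx (p.l (st p e n c U τ₀ σ).1) + mx (st p e n c U τ₀ σ).2 + σ.length + c + 1 := rfl
        by_cases h7 : p.l τ' z = 0
        · have h8 : nv p e c σ.length (st p e n c U τ₀ σ) z ≠ 0 := by omega
          have h9 : nv p e c σ.length (st p e n c U τ₀ σ) z =
            ga p c σ.length (st p e n c U τ₀ σ) := (nx_new h8 (by omega)).2
          omega
        · have h8 := mx_add_le z (h2 z hz (by omega) h7)
          omega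
      dom := by
        intro σ hσ z y hz hy
        have J := hJ σ hσ
        simp only [ll, Finsupp.add_apply] at hz
        by_cases h1 : p.l (st p e n c U τ₀ σ).1 z = 0
        · obtain ⟨⟨b, hb, hzb⟩, _⟩ := J.inC z (by omega)
          exact hev3 b hb y (hy.trans hzb)
        · exact hev1 y (dm_lower p ⟨_, J.vd, h1⟩ hy) }
  refine ⟨q, ⟨fun σ => (st p e n c U τ₀ σ).1, ?_, ?_⟩, ?_, ?_⟩
  · intro σ hσ
    refine ⟨(hJ σ hσ).vd, hlen σ hσ, fun z hz => ?_⟩
    have h1 := hdisj σ hσ z hz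
    change ll p e n c U τ₀ σ z = _
    simp only [ll, Finsupp.add_apply, h1, add_zero]
  · rintro σ τ hσ ⟨ρ, rfl⟩
    induction ρ with
    | nil => exact List.suffix_rfl
    | cons j ρ ih =>
      obtain ⟨⟨ρ', h1⟩, _⟩ := hstep j (ρ ++ τ) hσ
      refine (ih hσ.2).trans ?_
      change (st p e n c U τ₀ (ρ ++ τ)).1 <:+ (st p e n c U τ₀ (j :: (ρ ++ τ))).1
      rw [h1]
      exact List.suffix_append _ _
  · intro b hb
    obtain ⟨i, hi⟩ := hev3 b hb b le_rfl
    obtain ⟨τ, h1, h2⟩ := exists_above q [] trivial i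
    rw [List.append_nil] at h2
    exact ⟨τ, h2, hi τ h2 h1.ge⟩
  · intro σ hσ z hz h1 h2 x
    have J := hJ σ hσ
    have h3 : ll p e n c U τ₀ σ z ≠ 0 := h2
    change p.l [] x + n ≤ ll p e n c U τ₀ σ z
    have h4 := le_mx (p.l []) x
    simp only [ll, Finsupp.add_apply] at h3 ⊢
    by_cases h5 : p.l (st p e n c U τ₀ σ).1 z = 0
    · have h6 := J.bv z (by omega)
      omega
    · have h6 := J.big z hz h1 h5
      omega

end Pool.Agent.WAT
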