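import Pool.Agent.WAT.T

/-!
# WAT: FUS (fusion)
-/

set_option autoImplicit false

universe u

namespace Pool.Agent.WAT

namespace FUS_

variable {T : Type u} [PartialOrder T]

/-- the levels -/
def L (Qf : ℕ → Set T → Cond T → List (Cond T)) (p : Cond T) : ℕ → List (Cond T)
  | 0 => [p]
  | i + 1 => (L Qf p i).flatMap (Qf i {z | ∃ x ∈ L Qf p i, z ∈ Dm x})

/-- the set of all points in the domains of level `i` -/
def Bs (Qf : ℕ → Set T → Cond T → List (Cond T)) (p : Cond T) (i : ℕ) : Set T :=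
  {z | ∃ x ∈ L Qf p i, z ∈ Dm x}

theorem L_succ (Qf : ℕ → Set T → Cond T → List (Cond T)) (p : Cond T) (i : ℕ) :
    L Qf p (i + 1) = (L Qf p i).flatMap (Qf i (Bs Qf p i)) := rfl

/-- the specification of the lists -/
def Spec (D : ℕ → Set (Cond T)) (p : Cond T) (Qf : ℕ → Set T → Cond T → List (Cond T)) : Prop :=
  ∀ i B x, B.Countable → Lv i x → Le x p →
    (∀ q ∈ Qf i B x, q ∈ D i ∧ Lv (i + 1) q ∧ B ⊆ Dm q ∧ ∃ π, IsProj 1 q x π) ∧
      ∀ U : Set T, Wd i U → ∃ q ∈ Qf i B x, Good (x.l []) (q.l []) U i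

theorem Bs_countable (Qf : ℕ → Set T → Cond T → List (Cond T)) (p : Cond T) (i : ℕ) :
    (Bs Qf p i).Countable := by
  have h : Bs Qf p i ⊆ ⋃ x ∈ {x | x ∈ L Qf p i}, Dm x := by
    rintro z ⟨x, hx, hz⟩
    exact Set.mem_biUnion hx hz
  refine Set.Countable.mono h ?_
  exact Set.Countable.biUnion (List.finite_toSet _).countable (fun x _ => dm_countable x)

theorem L_spec {D : ℕ → Set (Cond T)} {p : Cond T} {Qf : ℕ → Set T → Cond T → List (Cond T)}
    (hQ : Spec D p Qf) (i : ℕ) : ∀ x ∈ L Qf p i, Lv i x ∧ Le x p := by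
  induction i with
  | zero =>
    intro x hx
    rw [L, List.mem_singleton] at hx
    subst hx
    exact ⟨Lv_zero _, Le_refl _⟩
  | succ i ih =>
    intro x hx
    rw [L_succ, List.mem_flatMap] at hx
    obtain ⟨y, hy, hx⟩ := hx
    obtain ⟨h1, h2⟩ := ih y hy
    obtain ⟨-, h3, -, π, h4⟩ := (hQ i _ y (Bs_countable Qf p i) h1 h2).1 x hx
    exact ⟨h3, Le_trans ⟨π, h4.mono (Nat.zero_le _)⟩ h2⟩

theorem L_mem {D : ℕ → Set (Cond T)} {p : Cond T} {Qf : ℕ → Set T → Cond T → List (Cond T)}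
    (hQ : Spec D p Qf) (i : ℕ) : ∀ x ∈ L Qf p (i + 1), x ∈ D i ∧ Bs Qf p i ⊆ Dm x := by
  intro x hx
  rw [L_succ, List.mem_flatMap] at hx
  obtain ⟨y, hy, hx⟩ := hx
  obtain ⟨h1, h2⟩ := L_spec hQ i y hy
  obtain ⟨h3, -, h4, -⟩ := (hQ i _ y (Bs_countable Qf p i) h1 h2).1 x hx
  exact ⟨h3, h4⟩

/-- the conditions along the positions -/
def r (Qf : ℕ → Set T → Cond T → List (Cond T)) (p : Cond T) : List ℕ → Cond T
  | [] => p
  | j :: s => (Qf s.length (Bs Qf p s.length) (r Qf p s)).getD j (r Qf p s)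

/-- the branching of the fusion -/
def ks (Qf : ℕ → Set T → Cond T → List (Cond T)) (p : Cond T) (s : List ℕ) : ℕ :=
  (Qf s.length (Bs Qf p s.length) (r Qf p s)).length

theorem r_mem (Qf : ℕ → Set T → Cond T → List (Cond T)) (p : Cond T) (j : ℕ) (s : List ℕ)
    (h : j < ks Qf p s) :
    r Qf p (j :: s) ∈ Qf s.length (Bs Qf p s.length) (r Qf p s) := by
  have : r Qf p (j :: s) =
      (Qf s.length (Bs Qf p s.length) (r Qf p s)).getD j (r Qf p s) := rfl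
  rw [this, List.getD_eq_getElem _ _ h]
  exact List.getElem_mem h

theorem r_L (Qf : ℕ → Set T → Cond T → List (Cond T)) (p : Cond T) : ∀ s : List ℕ,
    Vd (ks Qf p) s → r Qf p s ∈ L Qf p s.length
  | [], _ => List.mem_singleton.2 rfl
  | j :: s, h => by
    rw [List.length_cons, L_succ, List.mem_flatMap]
    exact ⟨_, r_L Qf p s h.2, r_mem Qf p j s h.1⟩

theorem r_step {D : ℕ → Set (Cond T)} {p : Cond T} {Qf : ℕ → Set T → Cond T → List (Cond T)}
    (hQ : Spec D p Qf) (j : ℕ) (s : List ℕ) (h : Vd (ks Qf p) (j :: s)) :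
    ∃ π, IsProj 1 (r Qf p (j :: s)) (r Qf p s) π := by
  obtain ⟨h1, h2⟩ := L_spec hQ _ _ (r_L Qf p s h.2)
  exact ((hQ _ _ _ (Bs_countable Qf p _) h1 h2).1 _ (r_mem Qf p j s h.1)).2.2.2

/-- the composed projections -/
def P (ρ : ℕ → List ℕ → List ℕ → List ℕ) (s : List ℕ) : List ℕ → List ℕ → List ℕ
  | [] => id
  | j :: t => P ρ s t ∘ ρ j (t ++ s)

theorem P_spec {p : Cond T} {Qf : ℕ → Set T → Cond T → List (Cond T)}
    {ρ : ℕ → List ℕ → List ℕ → List ℕ}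
    (hρ : ∀ j s, Vd (ks Qf p) (j :: s) → IsProj 1 (r Qf p (j :: s)) (r Qf p s) (ρ j s))
    (s : List ℕ) : ∀ t : List ℕ, Vd (ks Qf p) (t ++ s) →
      IsProj t.length (r Qf p (t ++ s)) (r Qf p s) (P ρ s t)
  | [], _ => isProj_id _
  | j :: t, h => by
    have h1 := (hρ j (t ++ s) h).trans (P_spec hρ s t h.2)
    exact h1.mono (by simp)

theorem P_suffix {p : Cond T} {Qf : ℕ → Set T → Cond T → List (Cond T)}
    {ρ : ℕ → List ℕ → List ℕ → List ℕ}
    (hρ : ∀ j s, Vd (ks Qf p) (j :: s) → IsProj 1 (r Qf p (j :: s)) (r Qf p s) (ρ j s))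
    (s τ : List ℕ) : ∀ σ : List ℕ, Vd (ks Qf p) ((σ ++ τ) ++ s) →
      P ρ s τ [] <:+ P ρ s (σ ++ τ) []
  | [], _ => List.suffix_refl _
  | j :: σ, h => by
    have h1 := P_suffix hρ s τ σ h.2
    refine h1.trans ?_
    have h2 := P_spec hρ s (σ ++ τ) h.2
    have h3 := hρ j ((σ ++ τ) ++ s) h
    exact h2.2 (ρ j ((σ ++ τ) ++ s) []) [] (h3.1 [] trivial).1 List.nil_suffix

/-- a finite list of conditions with a common point in the domains -/
theorem list_dom (R : List (Cond T)) (y : T) (hy : ∀ x ∈ R, y ∈ Dm x) :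
    ∃ i, ∀ x ∈ R, ∀ τ, Vd x.k τ → i ≤ τ.length → x.l τ y ≠ 0 := by
  induction R with
  | nil => exact ⟨0, fun x hx => absurd hx List.not_mem_nil⟩
  | cons a R ih =>
    obtain ⟨i, hi⟩ := ih fun x hx => hy x (List.mem_cons_of_mem _ hx)
    obtain ⟨i', hi'⟩ := dm_dom a (hy a List.mem_cons_self) le_rfl
    refine ⟨max i i', fun x hx τ hτ hl => ?_⟩
    rcases List.mem_cons.1 hx with rfl | h
    · exact hi' τ hτ (le_trans (le_max_right _ _) hl)
    · exact hi x h τ hτ (le_trans (le_max_left _ _) hl)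

/-- every list is split by the length of its suffix -/
theorem split (π : List ℕ) (m : ℕ) (h : m ≤ π.length) :
    ∃ t s : List ℕ, π = t ++ s ∧ s.length = m :=
  ⟨π.take (π.length - m), π.drop (π.length - m), (List.take_append_drop _ _).symm, by
    rw [List.length_drop]; omega⟩

end FUS_

open FUS_ in
/-- FUS -/
theorem p_FUS (hKEY : T_KEY.{u}) : T_FUS.{u} := by
  classical
  intro T _ hT p D hD hd
  have hex : ∀ (i : ℕ) (B : Set T) (x : Cond T), ∃ Q : List (Cond T),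
      B.Countable → Lv i x → Le x p →
      (∀ q ∈ Q, q ∈ D i ∧ Lv (i + 1) q ∧ B ⊆ Dm q ∧ ∃ π, IsProj 1 q x π) ∧
        ∀ U : Set T, Wd i U → ∃ q ∈ Q, Good (x.l []) (q.l []) U i := by
    intro i B x
    by_cases h : B.Countable ∧ Lv i x ∧ Le x p
    · obtain ⟨h1, h2, h3⟩ := h
      obtain ⟨Q, hQ1, hQ2⟩ := hKEY T hT i x h2 (D i) (hD i)
        (fun q hq => hd i q (Le_trans hq h3)) B h1 ∅ (fun x hx => by simp at hx)
      exact ⟨Q, fun _ _ _ => ⟨fun q hq =>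
        ⟨(hQ1 q hq).1, (hQ1 q hq).2.1, (hQ1 q hq).2.2.1, (hQ1 q hq).2.2.2.2⟩, hQ2⟩⟩
    · exact ⟨[], fun h1 h2 h3 => absurd ⟨h1, h2, h3⟩ h⟩
  choose Qf hQ' using hex
  have hQ : Spec D p Qf := hQ'
  have hρex : ∀ (j : ℕ) (s : List ℕ), ∃ ρ : List ℕ → List ℕ,
      Vd (ks Qf p) (j :: s) → IsProj 1 (r Qf p (j :: s)) (r Qf p s) ρ := by
    intro j s
    by_cases h : Vd (ks Qf p) (j :: s)
    · obtain ⟨ρ, hρ⟩ := r_step hQ j s h
      exact ⟨ρ, fun _ => hρ⟩
    · exact ⟨id, fun h' => absurd h' h⟩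
  choose ρ hρ using hρex
  have hdom : ∀ s, Vd (ks Qf p) s → ∀ z y, (r Qf p s).l [] z ≠ 0 → y ≤ z →
      ∃ i, ∀ τ, Vd (ks Qf p) τ → i ≤ τ.length → (r Qf p τ).l [] y ≠ 0 := by
    intro s hs z y hz hy
    have h1 : y ∈ Dm (r Qf p s) := dm_lower _ ⟨[], trivial, hz⟩ hy
    have h2 : y ∈ Bs Qf p s.length := ⟨_, r_L Qf p s hs, h1⟩
    obtain ⟨i, hi⟩ := list_dom (L Qf p (s.length + 1)) y
      (fun x hx => (L_mem hQ s.length x hx).2 h2)
    refine ⟨i + (s.length + 1), fun τ hτ hl => ?_⟩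
    obtain ⟨t, τ', rfl, h3⟩ := split τ (s.length + 1) (by omega)
    have h4 : Vd (ks Qf p) τ' := Vd_suffix hτ (List.suffix_append _ _)
    have h5 := r_L Qf p τ' h4
    rw [h3] at h5
    obtain ⟨h6, h7, h8⟩ := (P_spec hρ τ' t hτ).1 [] trivial
    have h9 : i ≤ (P ρ τ' t []).length := by
      rw [List.length_append, h3] at hl
      rw [List.length_nil] at h7
      omega
    have h10 := hi _ h5 _ h6 h9
    rw [h8 y h10]
    exact h10
  let q : Cond T :=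
    { k := ks Qf p
      l := fun s => (r Qf p s).l []
      mono := fun j σ h => Le.ex_nil ⟨_, (hρ j σ h).mono (Nat.zero_le _)⟩
      spec := fun σ _ => (r Qf p σ).spec [] trivial
      nor := fun σ hσ U hU => by
        obtain ⟨h1, h2⟩ := L_spec hQ _ _ (r_L Qf p σ hσ)
        obtain ⟨x, hx, hg⟩ := (hQ _ _ _ (Bs_countable Qf p _) h1 h2).2 U hU
        obtain ⟨j, hj, rfl⟩ := List.getElem_of_mem hx
        refine ⟨j, hj, ?_⟩
        have : r Qf p (j :: σ) =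
            (Qf σ.length (Bs Qf p σ.length) (r Qf p σ)).getD j (r Qf p σ) := rfl
        rw [this, List.getD_eq_getElem _ _ hj]
        exact hg
      dom := hdom }
  -- the subtree above `s` is below `r s`
  have hB : ∀ s (hs : Vd q.k s), Le (q.sub s hs) (r Qf p s) := by
    intro s hs
    refine ⟨fun t => P ρ s t [], fun t ht => ?_, ?_⟩
    · have h1 : Vd (ks Qf p) (t ++ s) := (q.sub_vd s hs t).1 ht
      obtain ⟨h2, h3, h4⟩ := (P_spec hρ s t h1).1 [] trivial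
      refine ⟨h2, ?_, h4⟩
      rw [List.length_nil] at h3
      dsimp only
      omega
    · rintro _ τ ht ⟨σ, rfl⟩
      exact P_suffix hρ s τ σ ((q.sub_vd s hs (σ ++ τ)).1 ht)
  have hqp : Le q p := by
    refine Le_trans ⟨id, fun σ hσ => ⟨?_, by simp, ?_⟩, fun _ _ _ h => h⟩ (hB [] trivial)
    · rw [q.sub_vd]
      change Vd q.k (σ ++ [])
      rw [List.append_nil]
      exact hσ
    · rw [Cond.sub_l]
      change Ex (q.l (σ ++ [])) (q.l σ)
      rw [List.append_nil]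
      exact Ex_refl _
  refine ⟨q, hqp, fun i => ⟨L Qf p (i + 1), fun x hx => (L_mem hQ i x hx).1, ?_⟩⟩
  rintro q' ⟨π, hπ⟩
  obtain ⟨τ, h1, h2⟩ := exists_above q' [] trivial (i + 1)
  rw [List.append_nil] at h2
  obtain ⟨h3, h4, h5⟩ := hπ.1 τ h2
  obtain ⟨t0, s, h6, h7⟩ := split (π τ) (i + 1) (by omega)
  have hs : Vd q.k s := Vd_suffix h3 (by rw [h6]; exact List.suffix_append _ _)
  refine ⟨r Qf p s, by rw [← h7]; exact r_L Qf p s hs, q'.sub τ h2, sub_le q' τ h2, ?_⟩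
  refine Le_trans ?_ (hB s hs)
  have hsuf : ∀ t, Vd (q'.sub τ h2).k t → ∃ t', π (t ++ τ) = t' ++ s := by
    intro t ht
    have h8 : Vd q'.k (t ++ τ) := (q'.sub_vd τ h2 t).1 ht
    have h9 := hπ.2 (t ++ τ) τ h8 (List.suffix_append _ _)
    rw [h6] at h9
    obtain ⟨a, ha⟩ := (List.suffix_append t0 s).trans h9
    exact ⟨a, ha.symm⟩
  have hsuf' : ∀ t, ∃ t', Vd (q'.sub τ h2).k t → π (t ++ τ) = t' ++ s := by
    intro t
    by_cases ht : Vd (q'.sub τ h2).k t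
    · obtain ⟨t', h⟩ := hsuf t ht
      exact ⟨t', fun _ => h⟩
    · exact ⟨[], fun h => absurd h ht⟩
  choose π' hπ' using hsuf'
  refine ⟨π', fun t ht => ?_, fun σ1 τ1 hv hsx => ?_⟩
  · have h8 : Vd q'.k (t ++ τ) := (q'.sub_vd τ h2 t).1 ht
    obtain ⟨h9, h10, h11⟩ := hπ.1 (t ++ τ) h8
    rw [hπ' t ht] at h9 h10 h11
    refine ⟨(q.sub_vd s hs _).2 h9, ?_, h11⟩
    rw [List.length_append, List.length_append] at h10
    omega
  · have h8 : Vd q'.k (σ1 ++ τ) := (q'.sub_vd τ h2 σ1).1 hv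
    have hv' : Vd (q'.sub τ h2).k τ1 := Vd_suffix hv hsx
    obtain ⟨a, rfl⟩ := hsx
    have h9 := hπ.2 ((a ++ τ1) ++ τ) (τ1 ++ τ) h8 ⟨a, by simp⟩
    rw [hπ' _ hv, hπ' _ hv'] at h9
    obtain ⟨b, hb⟩ := h9
    rw [← List.append_assoc] at hb
    exact ⟨b, List.append_cancel_right hb⟩

end Pool.Agent.WAT
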