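import Pool.Agent.WAT.T

/-!
# WAT: generalized Aronszajn trees satisfy the hypothesis `Hyp`
-/

set_option autoImplicit false

namespace Pool.Agent.WAT

theorem p_HYP : T_HYP := by
  intro T _ hT
  refine ⟨?_, ?_⟩
  · intro t a ha b hb hab
    have := hT.tree t
    have ha' : a < t := ha
    have hb' : b < t := hb
    rcases trichotomous_of (fun x y : {s : T // s < t} => x < y) ⟨a, ha'⟩ ⟨b, hb'⟩ with h | h | h
    · left
      have h1 : a < b := h
      exact h1.le
    · exact absurd (congrArg Subtype.val h) hab
    · right
      have h1 : b < a := h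
      exact h1.le
  · intro C hC
    obtain ⟨M, hM, hCM⟩ := hC.exists_maxChain
    exact (hT.branch M hM).mono hCM

end Pool.Agent.WAT
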