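import Pool.Agent.WAT.T

/-!
# WAT: KEY
-/

set_option autoImplicit false

universe u

open Topology

namespace Pool.Agent.WAT

namespace KEY_

/-- the properties required of the members of the list -/
def Ok {T : Type u} [PartialOrder T] (n : ℕ) (p : Cond T) (D : Set (Cond T)) (B : Set T)
    (X : Finset T) (q : Cond T) : Prop :=
  q ∈ D ∧ Lv (n + 1) q ∧ B ⊆ Dm q ∧ (∀ x ∈ X, q.l [] x ≠ 0) ∧ ∃ π, IsProj 1 q p π

theorem one {T : Type u} [PartialOrder T] (hE : T_E.{u}) (hT : Hyp T) (n : ℕ) (p : Cond T)
    (hp : Lv n p) (D : Set (Cond T)) (hD : ∀ q r, q ∈ D → Le r q → r ∈ D)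
    (hd : ∀ q, Le q p → ∃ r ∈ D, Le r q) (B : Set T) (hB : B.Countable) (X : Finset T)
    (hX : ∀ x ∈ X, x ∈ B) (U : Set T) (hU : Wd n U) :
    ∃ q : Cond T, Ok n p D B X q ∧ Good (p.l []) (q.l []) U n := by
  obtain ⟨q1, h1, h2, h3⟩ := hE T hT n p hp U hU (B ∪ U)
    (hB.union (Wd_countable hT.ctb hU))
  obtain ⟨q2, h4, h5⟩ := hd q1 h1
  obtain ⟨i, hi⟩ := dm_finite q2 X (fun x hx => h5.dm (h2 (Or.inl (hX x hx))))
  obtain ⟨τ, h6, h7⟩ := exists_above q2 [] trivial (i + (n + 1))
  rw [List.append_nil] at h7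
  have h8 : Le (q2.sub τ h7) q2 := sub_le q2 τ h7
  refine ⟨q2.sub τ h7, ⟨hD _ _ h4 h8, ?_, ?_, ?_, ?_⟩, ?_⟩
  · exact Lv_mono (q2.sub_lv τ h7 (Lv_zero q2)) (by omega)
  · intro x hx
    exact h8.dm (h5.dm (h2 (Or.inl hx)))
  · intro x hx
    rw [Cond.sub_l, List.nil_append]
    exact hi τ h7 (by omega) x hx
  · obtain ⟨ρ, hρ⟩ := Le_trans h5 h1
    exact ⟨_, ((isProj_sub q2 τ h7).trans hρ).mono (by omega)⟩
  · intro z hz hz0 hz1 x
    obtain ⟨τ', h9, h10⟩ := Le.val (Le_trans h8 h5) (h2 (Or.inr hz)) (σ := []) trivial hz1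
    rw [← h10]
    exact h3 τ' h9 z hz hz0 (by rw [h10]; exact hz1) x

/-- the set covered by a tuple -/
def Ub {T : Type u} {n : ℕ} (b : Fin n → T → Bool) : Set T := {z | ∃ i, b i z = true}

theorem open_good {T : Type u} [PartialOrder T] {n : ℕ} (u w : T →₀ ℕ) :
    IsOpen {b : Fin n → T → Bool | Good u w (Ub b) n} := by
  classical
  have h : {b : Fin n → T → Bool | Good u w (Ub b) n} = ⋂ z ∈ w.support,
      {b : Fin n → T → Bool | (∃ i, b i z = true) → u z = 0 → ∀ x, u x + n ≤ w z} := by
    ext b
    simp only [Set.mem_iInter]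
    constructor
    · intro hb z hz hi hu x
      exact hb z hi hu (by simpa using hz) x
    · intro hb z hz hu hw x
      exact hb z (by simpa using hw) hz hu x
  rw [h]
  refine isOpen_biInter_finset fun z _ => ?_
  by_cases hP : u z = 0 → ∀ x, u x + n ≤ w z
  · have : {b : Fin n → T → Bool | (∃ i, b i z = true) → u z = 0 → ∀ x, u x + n ≤ w z} =
        Set.univ := by
      ext b
      exact ⟨fun _ => trivial, fun _ _ => hP⟩
    rw [this]
    exact isOpen_univ
  · have : {b : Fin n → T → Bool | (∃ i, b i z = true) → u z = 0 → ∀ x, u x + n ≤ w z} =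
        ⋂ i : Fin n, {b : Fin n → T → Bool | b i z = false} := by
      ext b
      simp only [Set.mem_iInter]
      constructor
      · intro hb i
        by_contra hi
        have hi' : b i z = true := by
          cases h' : b i z with
          | false => exact absurd h' hi
          | true => rfl
        exact hP (hb ⟨i, hi'⟩)
      · rintro hb ⟨i, hi⟩
        have h1 : b i z = false := hb i
        rw [h1] at hi
        exact absurd hi (by decide)
    rw [this]
    refine isOpen_iInter_of_finite fun i => ?_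
    have hc : Continuous fun b : Fin n → T → Bool => b i z :=
      (continuous_apply z).comp (continuous_apply i)
    exact (isOpen_discrete {false}).preimage hc

theorem closed_chains {T : Type u} [PartialOrder T] {n : ℕ} :
    IsClosed {b : Fin n → T → Bool | ∀ i, IsChain (· ≤ ·) {z | b i z = true}} := by
  have h : {b : Fin n → T → Bool | ∀ i, IsChain (· ≤ ·) {z | b i z = true}} =
      ⋂ i : Fin n, ⋂ z : T, ⋂ z' : T,
        {b : Fin n → T → Bool | b i z = true → b i z' = true → z ≠ z' → z ≤ z' ∨ z' ≤ z} := by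
    ext b
    simp only [Set.mem_iInter]
    constructor
    · intro hb i z z' h1 h2 h3
      exact hb i h1 h2 h3
    · intro hb i z h1 z' h2 h3
      exact hb i z z' h1 h2 h3
  rw [h]
  refine isClosed_iInter fun i => isClosed_iInter fun z => isClosed_iInter fun z' => ?_
  by_cases hP : z ≠ z' → z ≤ z' ∨ z' ≤ z
  · have : {b : Fin n → T → Bool | b i z = true → b i z' = true → z ≠ z' → z ≤ z' ∨ z' ≤ z} =
        Set.univ := by
      ext b
      exact ⟨fun _ => trivial, fun _ _ _ => hP⟩
    rw [this]
    exact isClosed_univ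
  · have : {b : Fin n → T → Bool | b i z = true → b i z' = true → z ≠ z' → z ≤ z' ∨ z' ≤ z} =
        {b : Fin n → T → Bool | (b i z && b i z') = false} := by
      ext b
      constructor
      · intro hb
        change (b i z && b i z') = false
        by_contra hcon
        have h1 : (b i z && b i z') = true := by
          cases h' : (b i z && b i z') with
          | false => exact absurd h' hcon
          | true => rfl
        rw [Bool.and_eq_true] at h1
        exact hP (hb h1.1 h1.2)
      · intro hb h1 h2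
        have h3 : (b i z && b i z') = false := hb
        rw [h1, h2] at h3
        exact absurd h3 (by decide)
    rw [this]
    have hc : Continuous fun b : Fin n → T → Bool => (b i z && b i z') := by
      have h1 : Continuous fun b : Fin n → T → Bool => b i z :=
        (continuous_apply z).comp (continuous_apply i)
      have h2 : Continuous fun b : Fin n → T → Bool => b i z' :=
        (continuous_apply z').comp (continuous_apply i)
      have h3 : Continuous fun x : Bool × Bool => (x.1 && x.2) := continuous_of_discreteTopology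
      exact h3.comp (h1.prodMk h2)
    exact (isClosed_discrete {false}).preimage hc

end KEY_

open KEY_ in
/-- KEY -/
theorem p_KEY (hE : T_E.{u}) : T_KEY.{u} := by
  classical
  intro T _ hT n p hp D hD hd B hB X hX
  set K : Set (Fin n → T → Bool) := {b | ∀ i, IsChain (· ≤ ·) {z | b i z = true}} with hK
  have hKc : IsCompact K := closed_chains.isCompact
  have hWd : ∀ b ∈ K, Wd n (Ub b) := by
    intro b hb
    refine ⟨fun i => {z | b i z = true}, hb, ?_⟩
    rintro z ⟨i, hi⟩
    exact Set.mem_iUnion.2 ⟨i, hi⟩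
  have hone : ∀ b : Fin n → T → Bool, ∃ q : Cond T, b ∈ K →
      Ok n p D B X q ∧ Good (p.l []) (q.l []) (Ub b) n := by
    intro b
    by_cases hb : b ∈ K
    · obtain ⟨q, hq⟩ := one hE hT n p hp D hD hd B hB X hX (Ub b) (hWd b hb)
      exact ⟨q, fun _ => hq⟩
    · exact ⟨p, fun h => absurd h hb⟩
  choose f hf using hone
  obtain ⟨t, ht, hcov⟩ := hKc.elim_nhds_subcover
    (fun b => {b' : Fin n → T → Bool | Good (p.l []) ((f b).l []) (Ub b') n})
    (fun b hb => (open_good (p.l []) ((f b).l [])).mem_nhds (hf b hb).2)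
  refine ⟨t.toList.map f, ?_, ?_⟩
  · intro q hq
    obtain ⟨b, hb, rfl⟩ := List.mem_map.1 hq
    exact (hf b (ht b (Finset.mem_toList.1 hb))).1
  · rintro U ⟨b, hb, hU⟩
    have hbK : (fun i z => decide (z ∈ b i)) ∈ K := by
      intro i
      have : {z | decide (z ∈ b i) = true} = b i := by
        ext z; simp
      change IsChain (· ≤ ·) {z | decide (z ∈ b i) = true}
      rw [this]
      exact hb i
    obtain ⟨b', hb', hg⟩ := Set.mem_iUnion₂.1 (hcov hbK)
    refine ⟨f b', List.mem_map.2 ⟨b', Finset.mem_toList.2 hb', rfl⟩, Good_anti hg ?_ le_rfl⟩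
    intro z hz
    obtain ⟨i, hi⟩ := Set.mem_iUnion.1 (hU hz)
    exact ⟨i, by simpa using hi⟩

end Pool.Agent.WAT
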