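import Pool.Agent.WAT.T

/-!
# WAT: NAM, covering of names, preservation of `ω₁`, no Cohen reals
-/

set_option autoImplicit false

universe u v w

namespace Pool.Agent.WAT

namespace NAM_

/-- covering, for values of any type -/
theorem cover {P : Type u} [Preorder P] (hFF : FF P) {Y : Type w} (f : FName P ℕ Y) (p : P) :
    ∃ q ≤ p, ∃ F : ℕ → Finset Y, ∀ r ≤ q, ∀ n y, f.dec r n y → y ∈ F n := by
  classical
  obtain ⟨q, hq, hR⟩ := hFF p (fun n => {q | ∃ y, f.dec q n y})
    (fun n q r hq hr => by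
      obtain ⟨y, hy⟩ := hq
      exact ⟨y, f.mono _ _ _ _ hr hy⟩)
    (fun n q _ => by
      obtain ⟨r, hr, y, hy⟩ := f.total q n
      exact ⟨r, ⟨y, hy⟩, hr⟩)
  choose R hR1 hR2 using hR
  have hfin : ∀ n, {y | ∃ r ∈ R n, f.dec r n y}.Finite := by
    intro n
    have h1 : {y | ∃ r ∈ R n, f.dec r n y} = ⋃ r ∈ {r | r ∈ R n}, {y | f.dec r n y} := by
      ext y
      simp
    rw [h1]
    refine Set.Finite.biUnion (List.finite_toSet (R n)) fun r _ => ?_
    exact Set.Subsingleton.finite fun y hy y' hy' => f.func _ _ _ _ hy hy'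
  refine ⟨q, hq, fun n => (hfin n).toFinset, fun r hr n y hy => ?_⟩
  rw [Set.Finite.mem_toFinset]
  obtain ⟨r', hr', s, hs, hs'⟩ := hR2 n r hr
  obtain ⟨y', hy'⟩ := hR1 n r' hr'
  have h1 := f.func _ _ _ _ (f.mono _ _ _ _ hs hy) (f.mono _ _ _ _ hs' hy')
  subst h1
  exact ⟨r', hr', hy'⟩

theorem unc : ¬ (Set.univ : Set {α : Ordinal.{0} // α < Ordinal.omega 1}).Countable := by
  intro h
  have h1 : Countable (Set.Iio (Ordinal.omega.{0} 1)) := Set.countable_univ_iff.1 h
  have h2 := Cardinal.mk_le_aleph0_iff.2 h1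
  rw [Cardinal.mk_Iio_ordinal, Ordinal.card_omega, Cardinal.lift_aleph,
    ← Cardinal.aleph_zero, Cardinal.aleph_le_aleph] at h2
  simp at h2

/-- a bound for the members of a list -/
theorem bd {P : Type u} (Q : P → ℕ → Prop) (l : List P) (h : ∀ r ∈ l, ∃ m, Q r m) :
    ∃ H, ∀ r ∈ l, ∃ m ≤ H, Q r m := by
  induction l with
  | nil => exact ⟨0, fun r hr => by simp at hr⟩
  | cons a l ih =>
    obtain ⟨H, hH⟩ := ih fun r hr => h r (List.mem_cons_of_mem _ hr)
    obtain ⟨m, hm⟩ := h a List.mem_cons_self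
    refine ⟨max H m, fun r hr => ?_⟩
    rcases List.mem_cons.1 hr with rfl | hr
    · exact ⟨m, le_max_right _ _, hm⟩
    · obtain ⟨m', h1, h2⟩ := hH r hr
      exact ⟨m', le_trans h1 (le_max_left _ _), h2⟩

theorem fn_bd (s : Fn2) : ∃ M, ∀ i, s.1 i ≠ none → i < M := by
  obtain ⟨M, hM⟩ := s.2.bddAbove
  exact ⟨M + 1, fun i hi => Nat.lt_succ_of_le (hM hi)⟩

end NAM_

open NAM_

theorem p_COV : T_COV.{u} := fun _ _ hFF _ f p => cover hFF f p

theorem p_OM1 : T_OM1.{u} := by
  intro P _ hFF f p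
  obtain ⟨q, hq, F, hF⟩ := cover hFF f p
  have hc : (⋃ n, ((F n : Finset _) : Set {α : Ordinal.{0} // α < Ordinal.omega 1})).Countable :=
    Set.countable_iUnion fun n => (F n).countable_toSet
  obtain ⟨α, hα⟩ : ∃ α, α ∉ ⋃ n, ((F n : Finset _) : Set {α : Ordinal.{0} //
      α < Ordinal.omega 1}) := by
    by_contra hne
    push Not at hne
    exact unc (hc.mono fun α _ => hne α)
  refine ⟨q, hq, α, fun r hr n hn => hα ?_⟩
  exact Set.mem_iUnion.2 ⟨n, hF r hr n α hn⟩

theorem p_COH : T_COH.{u} := by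
  classical
  intro P _ hFF c p
  by_cases h : ∃ p1 ≤ p, ∃ k : ℕ, ∀ q ≤ p1, ∀ m ≥ k, ¬ ∀ i, m ≤ i → i < m + k → c.dec q i false
  · obtain ⟨p1, hp1, k, hk⟩ := h
    refine ⟨p1, hp1, {t : Fn2 | ∃ m ≥ k, ∀ i, m ≤ i → i < m + k → t.1 i = some false}, ?_, ?_⟩
    · intro s
      obtain ⟨M, hM⟩ := fn_bd s
      refine ⟨⟨fun i => if max k M ≤ i ∧ i < max k M + k then some false else s.1 i, ?_⟩, ?_, ?_⟩
      · refine (s.2.union (Set.finite_Iio (max k M + k))).subset fun i hi => ?_
        by_cases h1 : max k M ≤ i ∧ i < max k M + k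
        · exact Or.inr h1.2
        · left
          have h2 : (if max k M ≤ i ∧ i < max k M + k then some false else s.1 i) ≠ none := hi
          rw [if_neg h1] at h2
          exact h2
      · exact ⟨max k M, le_max_left _ _, fun i h1 h2 => if_pos ⟨h1, h2⟩⟩
      · intro n b hb
        have h1 : n < M := hM n (by rw [hb]; simp)
        show (if max k M ≤ n ∧ n < max k M + k then some false else s.1 n) = some b
        rw [if_neg, hb]
        rintro ⟨h2, -⟩
        have := le_trans (le_max_right k M) h2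
        omega
    · rintro r hr t ⟨m, hm, ht⟩ hcon
      exact hk r hr m hm fun i h1 h2 => hcon i false (ht i h1 h2)
  · push Not at h
    obtain ⟨q, hq, hR⟩ := hFF p
      (fun k => {q | ∃ m ≥ k, ∀ i, m ≤ i → i < m + k → c.dec q i false})
      (fun k q r hq hr => by
        obtain ⟨m, hm, h1⟩ := hq
        exact ⟨m, hm, fun i h2 h3 => c.mono _ _ _ _ hr (h1 i h2 h3)⟩)
      (fun k q hq => by
        obtain ⟨r, hr, m, hm, h1⟩ := h q hq k
        exact ⟨r, ⟨m, hm, h1⟩, hr⟩)
    choose R hR1 hR2 using hR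
    have hH : ∀ k, ∃ H, ∀ r ∈ R k, ∃ m ≤ H, k ≤ m ∧ ∀ i, m ≤ i → i < m + k → c.dec r i false :=
      fun k => bd (fun r m => k ≤ m ∧ ∀ i, m ≤ i → i < m + k → c.dec r i false) (R k)
        fun r hr => hR1 k r hr
    choose H hH using hH
    refine ⟨q, hq, {t : Fn2 | ∃ k, (∀ i < H k + k, t.1 i ≠ none) ∧
      ∀ m, k ≤ m → m ≤ H k → ∃ i, m ≤ i ∧ i < m + k ∧ t.1 i ≠ some false}, ?_, ?_⟩
    · intro s
      obtain ⟨M, hM⟩ := fn_bd s
      refine ⟨⟨fun i => if s.1 i = none ∧ i < H (M + 1) + (M + 1) then some true else s.1 i, ?_⟩,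
        ⟨M + 1, ?_, ?_⟩, ?_⟩
      · refine (s.2.union (Set.finite_Iio (H (M + 1) + (M + 1)))).subset fun i hi => ?_
        by_cases h1 : s.1 i = none ∧ i < H (M + 1) + (M + 1)
        · exact Or.inr h1.2
        · left
          have h2 : (if s.1 i = none ∧ i < H (M + 1) + (M + 1) then some true else s.1 i) ≠ none :=
            hi
          rw [if_neg h1] at h2
          exact h2
      · intro i hi
        show (if s.1 i = none ∧ i < H (M + 1) + (M + 1) then some true else s.1 i) ≠ none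
        by_cases h1 : s.1 i = none
        · rw [if_pos ⟨h1, hi⟩]; simp
        · rw [if_neg fun h2 => h1 h2.1]; exact h1
      · intro m hm1 hm2
        refine ⟨m, le_rfl, by omega, ?_⟩
        show (if s.1 m = none ∧ m < H (M + 1) + (M + 1) then some true else s.1 m) ≠ some false
        have h1 : s.1 m = none := by
          by_contra h2
          have := hM m h2
          omega
        rw [if_pos ⟨h1, by omega⟩]
        simp
      · intro n b hb
        show (if s.1 n = none ∧ n < H (M + 1) + (M + 1) then some true else s.1 n) = some b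
        rw [if_neg, hb]
        rintro ⟨h1, -⟩
        rw [hb] at h1
        exact absurd h1 (by simp)
    · rintro r hr t ⟨k, ht1, ht2⟩ hcon
      obtain ⟨r', hr', s, hs, hs'⟩ := hR2 k r hr
      obtain ⟨m, hm1, hm2, hm3⟩ := hH k r' hr'
      obtain ⟨i, hi1, hi2, hi3⟩ := ht2 m hm2 hm1
      have h1 : c.dec s i false := c.mono _ _ _ _ hs' (hm3 i hi1 hi2)
      have h2 : t.1 i = some true := by
        have h3 := ht1 i (by omega)
        cases h4 : t.1 i with
        | none => exact absurd h4 h3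
        | some b =>
          cases b with
          | true => rfl
          | false => exact absurd h4 hi3
      have h3 := c.mono _ _ _ _ hs (hcon i true h2)
      exact absurd (c.func _ _ _ _ h1 h3) (by decide)

end Pool.Agent.WAT
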