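import Mathlib

/-!
# WAT: specialising wide Aronszajn trees by a bounding forcing: the forcing

Conditions are finitely branching trees of finite colourings.  Positions are lists of natural
numbers, the last step first: the children of `σ` are `j :: σ`, `j < k σ`.
-/

set_option autoImplicit false
set_option linter.unusedSectionVars false

universe u

namespace Pool.Agent.WAT

variable {T : Type u} [PartialOrder T]

/-- valid positions -/
def Vd (k : List ℕ → ℕ) : List ℕ → Prop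
  | [] => True
  | j :: σ => j < k σ ∧ Vd k σ

/-- `U` is covered by `n` chains -/
def Wd (n : ℕ) (U : Set T) : Prop :=
  ∃ b : Fin n → Set T, (∀ i, IsChain (· ≤ ·) (b i)) ∧ U ⊆ ⋃ i, b i

/-- the new colours of `w` over `u` in `U` exceed the colours of `u` by at least `c` -/
def Good (u w : T → ℕ) (U : Set T) (c : ℕ) : Prop :=
  ∀ z ∈ U, u z = 0 → w z ≠ 0 → ∀ x, u x + c ≤ w z

/-- `w` extends `u` (the colour `0` means `not yet coloured`) -/
def Ex (u w : T → ℕ) : Prop := ∀ z, u z ≠ 0 → w z = u z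

/-- the colouring `u` is good -/
def Sp (u : T → ℕ) : Prop := ∀ z z', z < z' → u z ≠ 0 → u z' ≠ 0 → u z ≠ u z'

/-- The conditions. -/
structure Cond (T : Type u) [PartialOrder T] where
  k : List ℕ → ℕ
  l : List ℕ → T →₀ ℕ
  mono : ∀ j σ, Vd k (j :: σ) → Ex (l σ) (l (j :: σ))
  spec : ∀ σ, Vd k σ → Sp (l σ)
  nor : ∀ σ, Vd k σ → ∀ U : Set T, Wd σ.length U →
    ∃ j < k σ, Good (l σ) (l (j :: σ)) U σ.length
  dom : ∀ σ, Vd k σ → ∀ z y, l σ z ≠ 0 → y ≤ z →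
    ∃ i, ∀ τ, Vd k τ → i ≤ τ.length → l τ y ≠ 0

/-- `p` has norms at least `n + |σ|` -/
def Lv (n : ℕ) (p : Cond T) : Prop :=
  ∀ σ, Vd p.k σ → ∀ U : Set T, Wd (n + σ.length) U →
    ∃ j < p.k σ, Good (p.l σ) (p.l (j :: σ)) U (n + σ.length)

/-- projections -/
def IsProj (m : ℕ) (q p : Cond T) (π : List ℕ → List ℕ) : Prop :=
  (∀ σ, Vd q.k σ → Vd p.k (π σ) ∧ σ.length + m ≤ (π σ).length ∧ Ex (p.l (π σ)) (q.l σ)) ∧
    ∀ σ τ, Vd q.k σ → τ <:+ σ → π τ <:+ π σ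

/-- the order -/
def Le (q p : Cond T) : Prop := ∃ π, IsProj 0 q p π

/-- the domain of a condition -/
def Dm (p : Cond T) : Set T := {z | ∃ σ, Vd p.k σ ∧ p.l σ z ≠ 0}

/-! ### basic facts -/

theorem Vd_append {k : List ℕ → ℕ} {σ : List ℕ} : ∀ τ : List ℕ,
    Vd k (τ ++ σ) ↔ Vd (fun ρ => k (ρ ++ σ)) τ ∧ Vd k σ
  | [] => by simp [Vd]
  | j :: τ => by
    have := Vd_append (k := k) (σ := σ) τ
    simp only [List.cons_append, Vd, this, and_assoc]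

theorem Vd_suffix {k : List ℕ → ℕ} {σ τ : List ℕ} (h : Vd k σ) (hs : τ <:+ σ) : Vd k τ := by
  obtain ⟨ρ, rfl⟩ := hs
  exact ((Vd_append ρ).1 h).2

theorem Ex_refl (u : T → ℕ) : Ex u u := fun _ _ => rfl

theorem Ex_trans {u v w : T → ℕ} (h : Ex u v) (h' : Ex v w) : Ex u w := by
  intro z hz
  have h1 := h z hz
  rw [h' z (by rw [h1]; exact hz), h1]

theorem Good_anti {u w : T → ℕ} {U U' : Set T} {c c' : ℕ} (h : Good u w U c) (hU : U' ⊆ U)
    (hc : c' ≤ c) : Good u w U' c' :=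
  fun z hz h1 h2 x => le_trans (by omega) (h z (hU hz) h1 h2 x)

theorem Good_trans {u v w : T → ℕ} {U : Set T} {c c' : ℕ} (h : Good u v U c) (hE : Ex u v)
    (hE' : Ex v w) (h' : Good v w U c') (hc : c ≤ c') : Good u w U c := by
  intro z hz h1 h2 x
  by_cases h3 : v z = 0
  · have h4 := h' z hz h3 h2 x
    by_cases h5 : u x = 0
    · omega
    · rw [hE x h5] at h4; omega
  · rw [hE' z h3]
    exact h z hz h1 h3 x

theorem Wd_mono {n m : ℕ} {U U' : Set T} (h : Wd n U) (hU : U' ⊆ U) (hn : n ≤ m) : Wd m U' := by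
  obtain ⟨b, hb, hU1⟩ := h
  refine ⟨fun i => if hi : (i : ℕ) < n then b ⟨i, hi⟩ else ∅, fun i => ?_, ?_⟩
  · dsimp only
    split_ifs with hi
    · exact hb _
    · simp [IsChain]
  · intro z hz
    obtain ⟨i, hi⟩ := Set.mem_iUnion.1 (hU1 (hU hz))
    refine Set.mem_iUnion.2 ⟨⟨i, lt_of_lt_of_le i.2 hn⟩, ?_⟩
    simpa using hi

theorem Wd_zero : Wd 0 (∅ : Set T) := ⟨fun _ => ∅, fun i => i.elim0, Set.empty_subset _⟩

theorem Wd_chain {C : Set T} (h : IsChain (· ≤ ·) C) : Wd 1 C :=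
  ⟨fun _ => C, fun _ => h, fun _ hz => Set.mem_iUnion.2 ⟨0, hz⟩⟩

theorem Wd_union {n m : ℕ} {U U' : Set T} (h : Wd n U) (h' : Wd m U') : Wd (n + m) (U ∪ U') := by
  obtain ⟨b, hb, hU⟩ := h
  obtain ⟨b', hb', hU'⟩ := h'
  refine ⟨Fin.addCases b b', fun i => ?_, ?_⟩
  · refine Fin.addCases (fun i => ?_) (fun i => ?_) i
    · simp only [Fin.addCases_left]; exact hb i
    · simp only [Fin.addCases_right]; exact hb' i
  · rintro z (hz | hz)
    · obtain ⟨i, hi⟩ := Set.mem_iUnion.1 (hU hz)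
      refine Set.mem_iUnion.2 ⟨Fin.castAdd m i, ?_⟩
      simp only [Fin.addCases_left]; exact hi
    · obtain ⟨i, hi⟩ := Set.mem_iUnion.1 (hU' hz)
      refine Set.mem_iUnion.2 ⟨Fin.natAdd n i, ?_⟩
      simp only [Fin.addCases_right]; exact hi

theorem Wd_finset (hT : ∀ t : T, IsChain (· ≤ ·) {s | s < t}) (s : Finset T) :
    Wd s.card {z : T | ∃ a ∈ s, z < a} := by
  classical
  induction s using Finset.induction_on with
  | empty => exact Wd_mono Wd_zero (by intro z hz; simp at hz) (by simp)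
  | insert a s ha ih =>
    rw [Finset.card_insert_of_notMem ha]
    refine Wd_mono (Wd_union ih (Wd_chain (hT a))) ?_ le_rfl
    rintro z ⟨a', ha', hz⟩
    rcases Finset.mem_insert.1 ha' with rfl | h
    · exact Or.inr hz
    · exact Or.inl ⟨a', h, hz⟩

theorem Wd_countable (hC : ∀ C : Set T, IsChain (· ≤ ·) C → C.Countable) {n : ℕ} {U : Set T}
    (h : Wd n U) : U.Countable := by
  obtain ⟨b, hb, hU⟩ := h
  exact (Set.countable_iUnion fun i => hC _ (hb i)).mono hU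

/-- labels increase along the tree -/
theorem Cond.ext_suffix (p : Cond T) {σ τ : List ℕ} (h : Vd p.k σ) (hs : τ <:+ σ) :
    Ex (p.l τ) (p.l σ) := by
  obtain ⟨ρ, rfl⟩ := hs
  induction ρ with
  | nil => exact Ex_refl _
  | cons j ρ ih => exact Ex_trans (ih h.2) (p.mono j _ h)

theorem Lv_zero (p : Cond T) : Lv 0 p := by
  intro σ hσ U hU
  rw [zero_add] at hU ⊢
  exact p.nor σ hσ U hU

theorem Lv_mono {p : Cond T} {n m : ℕ} (h : Lv m p) (hn : n ≤ m) : Lv n p := by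
  intro σ hσ U hU
  obtain ⟨j, hj, hg⟩ := h σ hσ U (Wd_mono hU le_rfl (by omega))
  exact ⟨j, hj, Good_anti hg le_rfl (by omega)⟩

/-- the subtree above a valid position -/
def Cond.sub (p : Cond T) (σ : List ℕ) (h : Vd p.k σ) : Cond T where
  k τ := p.k (τ ++ σ)
  l τ := p.l (τ ++ σ)
  mono j τ hτ := p.mono j (τ ++ σ) ((Vd_append (j :: τ)).2 ⟨hτ, h⟩)
  spec τ hτ := p.spec (τ ++ σ) ((Vd_append τ).2 ⟨hτ, h⟩)
  nor τ hτ U hU := by
    obtain ⟨j, hj, hg⟩ := p.nor (τ ++ σ) ((Vd_append τ).2 ⟨hτ, h⟩) U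
      (Wd_mono hU le_rfl (by simp))
    exact ⟨j, hj, Good_anti hg le_rfl (by simp)⟩
  dom τ hτ z y hz hy := by
    obtain ⟨i, hi⟩ := p.dom (τ ++ σ) ((Vd_append τ).2 ⟨hτ, h⟩) z y hz hy
    exact ⟨i, fun ρ hρ hl => hi (ρ ++ σ) ((Vd_append ρ).2 ⟨hρ, h⟩) (by simp; omega)⟩

theorem Cond.sub_k (p : Cond T) (σ : List ℕ) (h : Vd p.k σ) (τ : List ℕ) :
    (p.sub σ h).k τ = p.k (τ ++ σ) := rfl

theorem Cond.sub_l (p : Cond T) (σ : List ℕ) (h : Vd p.k σ) (τ : List ℕ) :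
    (p.sub σ h).l τ = p.l (τ ++ σ) := rfl

theorem Cond.sub_vd (p : Cond T) (σ : List ℕ) (h : Vd p.k σ) (τ : List ℕ) :
    Vd (p.sub σ h).k τ ↔ Vd p.k (τ ++ σ) :=
  ⟨fun h' => (Vd_append τ).2 ⟨h', h⟩, fun h' => ((Vd_append τ).1 h').1⟩

theorem Cond.sub_lv (p : Cond T) (σ : List ℕ) (h : Vd p.k σ) {n : ℕ} (hn : Lv n p) :
    Lv (n + σ.length) (p.sub σ h) := by
  intro τ hτ U hU
  obtain ⟨j, hj, hg⟩ := hn (τ ++ σ) ((p.sub_vd σ h τ).1 hτ) U
    (Wd_mono hU le_rfl (by simp; omega))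
  exact ⟨j, hj, Good_anti hg le_rfl (by simp; omega)⟩

theorem IsProj.mono {m m' : ℕ} {q p : Cond T} {π : List ℕ → List ℕ} (h : IsProj m q p π)
    (hm : m' ≤ m) : IsProj m' q p π :=
  ⟨fun σ hσ => ⟨(h.1 σ hσ).1, le_trans (by omega) (h.1 σ hσ).2.1, (h.1 σ hσ).2.2⟩, h.2⟩

theorem IsProj.trans {m m' : ℕ} {r q p : Cond T} {π ρ : List ℕ → List ℕ} (h : IsProj m r q π)
    (h' : IsProj m' q p ρ) : IsProj (m + m') r p (ρ ∘ π) := by
  refine ⟨fun σ hσ => ?_, fun σ τ hσ hτ => ?_⟩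
  · obtain ⟨h1, h2, h3⟩ := h.1 σ hσ
    obtain ⟨h4, h5, h6⟩ := h'.1 (π σ) h1
    exact ⟨h4, by simp only [Function.comp]; omega, Ex_trans h6 h3⟩
  · exact h'.2 _ _ (h.1 σ hσ).1 (h.2 σ τ hσ hτ)

theorem isProj_id (p : Cond T) : IsProj 0 p p id :=
  ⟨fun _ hσ => ⟨hσ, le_rfl, Ex_refl _⟩, fun _ _ _ h => h⟩

theorem isProj_sub (p : Cond T) (σ : List ℕ) (h : Vd p.k σ) :
    IsProj σ.length (p.sub σ h) p (fun τ => τ ++ σ) := by
  refine ⟨fun τ hτ => ⟨(p.sub_vd σ h τ).1 hτ, by simp, Ex_refl _⟩, ?_⟩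
  rintro τ τ' _ ⟨ρ, rfl⟩
  exact ⟨ρ, by simp⟩

theorem Le_refl (p : Cond T) : Le p p := ⟨id, isProj_id p⟩

theorem Le_trans {r q p : Cond T} (h : Le r q) (h' : Le q p) : Le r p := by
  obtain ⟨π, hπ⟩ := h
  obtain ⟨ρ, hρ⟩ := h'
  exact ⟨_, hπ.trans hρ⟩

theorem sub_le (p : Cond T) (σ : List ℕ) (h : Vd p.k σ) : Le (p.sub σ h) p :=
  ⟨_, (isProj_sub p σ h).mono (Nat.zero_le _)⟩

/-- every level has valid positions -/
theorem exists_child (p : Cond T) (σ : List ℕ) (h : Vd p.k σ) : ∃ j, Vd p.k (j :: σ) := by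
  obtain ⟨j, hj, _⟩ := p.nor σ h ∅ (Wd_mono Wd_zero le_rfl (Nat.zero_le _))
  exact ⟨j, hj, h⟩

theorem exists_above (p : Cond T) (σ : List ℕ) (h : Vd p.k σ) (m : ℕ) :
    ∃ τ : List ℕ, τ.length = m ∧ Vd p.k (τ ++ σ) := by
  induction m with
  | zero => exact ⟨[], rfl, h⟩
  | succ m ih =>
    obtain ⟨τ, h1, h2⟩ := ih
    obtain ⟨j, hj⟩ := exists_child p _ h2
    exact ⟨j :: τ, by simp [h1], hj⟩

/-- the domain is a lower set, and its elements are coloured at all positions of some level on -/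
theorem dm_dom (p : Cond T) {z y : T} (hz : z ∈ Dm p) (hy : y ≤ z) :
    ∃ i, ∀ τ, Vd p.k τ → i ≤ τ.length → p.l τ y ≠ 0 := by
  obtain ⟨σ, hσ, h⟩ := hz
  exact p.dom σ hσ z y h hy

theorem dm_lower (p : Cond T) {z y : T} (hz : z ∈ Dm p) (hy : y ≤ z) : y ∈ Dm p := by
  obtain ⟨i, hi⟩ := dm_dom p hz hy
  obtain ⟨τ, h1, h2⟩ := exists_above p [] trivial i
  rw [List.append_nil] at h2
  exact ⟨τ, h2, hi τ h2 h1.ge⟩

theorem dm_countable (p : Cond T) : (Dm p).Countable := by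
  have h : Dm p ⊆ ⋃ σ : List ℕ, ((p.l σ).support : Set T) := by
    rintro z ⟨σ, _, hz⟩
    exact Set.mem_iUnion.2 ⟨σ, by simpa using hz⟩
  exact (Set.countable_iUnion fun σ => (Finset.countable_toSet _)).mono h

/-- a finite subset of the domain is coloured at all positions of some level on -/
theorem dm_finite (p : Cond T) (X : Finset T) (hX : ∀ x ∈ X, x ∈ Dm p) :
    ∃ i, ∀ τ, Vd p.k τ → i ≤ τ.length → ∀ x ∈ X, p.l τ x ≠ 0 := by
  classical
  induction X using Finset.induction_on with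
  | empty => exact ⟨0, fun τ _ _ x hx => by simp at hx⟩
  | insert a s ha ih =>
    obtain ⟨i, hi⟩ := ih fun x hx => hX x (Finset.mem_insert_of_mem hx)
    obtain ⟨i', hi'⟩ := dm_dom p (hX a (Finset.mem_insert_self _ _)) le_rfl
    refine ⟨max i i', fun τ hτ hl x hx => ?_⟩
    rcases Finset.mem_insert.1 hx with rfl | h
    · exact hi' τ hτ (le_trans (le_max_right _ _) hl)
    · exact hi τ hτ (le_trans (le_max_left _ _) hl) x h

theorem Le.ex_nil {q p : Cond T} (h : Le q p) : Ex (p.l []) (q.l []) := by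
  obtain ⟨π, hπ⟩ := h
  obtain ⟨h1, _, h3⟩ := hπ.1 [] trivial
  exact Ex_trans (p.ext_suffix h1 (List.nil_suffix)) h3

theorem Le.dm {q p : Cond T} (h : Le q p) : Dm p ⊆ Dm q := by
  obtain ⟨π, hπ⟩ := h
  intro z hz
  obtain ⟨i, hi⟩ := dm_dom p hz le_rfl
  obtain ⟨τ, h1, h2⟩ := exists_above q [] trivial i
  rw [List.append_nil] at h2
  obtain ⟨h3, h4, h5⟩ := hπ.1 τ h2
  have h6 := hi (π τ) h3 (by omega)
  exact ⟨τ, h2, by rw [h5 z h6]; exact h6⟩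

/-- the colours of a stronger condition in the domain of a weaker one come from the weaker one -/
theorem Le.val {q p : Cond T} (h : Le q p) {z : T} (hz : z ∈ Dm p) {σ : List ℕ}
    (hσ : Vd q.k σ) (h0 : q.l σ z ≠ 0) : ∃ τ, Vd p.k τ ∧ p.l τ z = q.l σ z := by
  obtain ⟨π, hπ⟩ := h
  obtain ⟨i, hi⟩ := dm_dom p hz le_rfl
  obtain ⟨τ, h1, h2⟩ := exists_above q σ hσ i
  obtain ⟨h3, h4, h5⟩ := hπ.1 (τ ++ σ) h2
  have h6 := hi (π (τ ++ σ)) h3 (by simp at h4; omega)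
  refine ⟨_, h3, ?_⟩
  rw [← h5 z h6, q.ext_suffix h2 (List.suffix_append _ _) z h0]

end Pool.Agent.WAT
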