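import Pool.Agent.WAT.T

/-!
# WAT: the composition
-/

set_option autoImplicit false
set_option linter.unusedSectionVars false

universe u

namespace Pool.Agent.WAT

variable {T : Type u} [PartialOrder T]

/-- the forcing -/
instance : Preorder (Cond T) where
  le := Le
  le_refl := Le_refl
  le_trans _ _ _ h h' := Le_trans h h'

theorem le_def {q p : Cond T} : q ≤ p ↔ Le q p := Iff.rfl

/-- the weakest condition -/
noncomputable def top (T : Type u) [PartialOrder T] : Cond T where
  k _ := 1
  l _ := 0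
  mono _ _ _ := fun z hz => by simp at hz
  spec _ _ := fun z z' _ hz => by simp at hz
  nor σ _ U _ := ⟨0, Nat.zero_lt_one, fun z _ _ hz => by simp at hz⟩
  dom σ _ z y hz _ := by simp at hz

instance : Nonempty (Cond T) := ⟨top T⟩

/-- every node is coloured by a dense set of conditions -/
theorem dense_dom (hE : T_E.{u}) (hT : Hyp T) (p : Cond T) (t : T) :
    ∃ q : Cond T, q ≤ p ∧ q.l [] t ≠ 0 := by
  obtain ⟨q, h1, h2, _⟩ := hE T hT 0 p (Lv_zero p) ∅ Wd_zero {t} (Set.countable_singleton t)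
  obtain ⟨i, hi⟩ := dm_dom q (h2 rfl) le_rfl
  obtain ⟨τ, h3, h4⟩ := exists_above q [] trivial i
  rw [List.append_nil] at h4
  exact ⟨q.sub τ h4, Le_trans (sub_le q τ h4) h1, hi τ h4 h3.ge⟩

theorem specializes (hE : T_E.{u}) (hT : Hyp T) : Specializes (Cond T) T := by
  refine ⟨{ dec := fun p t n => p.l [] t = n + 1
            mono := ?_
            func := ?_
            total := ?_ }, ?_⟩
  · intro p q x y h hp
    have h1 := Le.ex_nil (le_def.1 h) x (by rw [hp]; omega)
    rw [h1, hp]
  · intro p x y y' h h'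
    omega
  · intro p x
    obtain ⟨q, h1, h2⟩ := dense_dom hE hT p x
    exact ⟨q, h1, q.l [] x - 1, by omega⟩
  · rintro p s t n hst ⟨h, h'⟩
    change p.l [] s = n + 1 at h
    change p.l [] t = n + 1 at h'
    exact p.spec [] trivial s t hst (by omega) (by omega) (by omega)

theorem ff_cond (hFUS : T_FUS.{u}) (hT : Hyp T) : FF (Cond T) :=
  fun p D h1 h2 => hFUS T hT p D h1 h2

theorem main (hE : T_E.{u}) (hFUS : T_FUS.{u}) (hCOV : T_COV.{u}) (hOM1 : T_OM1.{u})
    (hCOH : T_COH.{u}) (hT : Hyp T) :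
    ∃ (P : Type u) (_ : Preorder P), Nonempty P ∧ PreservesOmega1 P ∧ Specializes P T ∧
      AddsNoCohenReal P ∧ FinitelyCovers P :=
  ⟨Cond T, inferInstance, inferInstance, hOM1 _ (ff_cond hFUS hT), specializes hE hT,
    hCOH _ (ff_cond hFUS hT), hCOV _ (ff_cond hFUS hT)⟩

end Pool.Agent.WAT
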