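import Mathlib

/-!
# WAT: names, and the notions of the question
-/

set_option autoImplicit false

universe u v w

namespace Pool.Agent.WAT

/-- A name for a function from `X` to `Y` in the forcing extensions by `P`:
`dec p x y` means that `p` forces the value at `x` to be `y`. -/
structure FName (P : Type u) [Preorder P] (X : Type v) (Y : Type w) where
  dec : P → X → Y → Prop
  mono : ∀ p q x y, q ≤ p → dec p x y → dec q x y
  func : ∀ p x y y', dec p x y → dec p x y' → y = y'
  total : ∀ p x, ∃ q ≤ p, ∃ y, dec q x y

/-- `P` preserves `ω₁`: no condition forces a name to be a function from `ω` onto the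
ground model ordinal `ω₁`. -/
def PreservesOmega1 (P : Type u) [Preorder P] : Prop :=
  ∀ (f : FName P ℕ {α : Ordinal.{0} // α < Ordinal.omega 1}) (p : P),
    ∃ q ≤ p, ∃ α, ∀ r ≤ q, ∀ n, ¬ f.dec r n α

/-- `P` makes `T` special: there is a name `f` for a function from `T` to `ω` such that
`f(s) ≠ f(t)` is forced for all `s < t`. -/
def Specializes (P : Type u) [Preorder P] (T : Type v) [PartialOrder T] : Prop :=
  ∃ f : FName P T ℕ, ∀ (p : P) (s t : T) (n : ℕ), s < t → ¬ (f.dec p s n ∧ f.dec p t n)

/-- The functions from finite subsets of `ω` to `2`: the conditions of Cohen forcing. -/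
def Fn2 : Type := {s : ℕ → Option Bool // {n | s n ≠ none}.Finite}

/-- `t` extends `s` -/
def Fn2.Extends (t s : Fn2) : Prop := ∀ n b, s.1 n = some b → t.1 n = some b

/-- `D` is a dense set of conditions of Cohen forcing -/
def Fn2.Dense (D : Set Fn2) : Prop := ∀ s : Fn2, ∃ t ∈ D, t.Extends s

/-- `P` adds no Cohen real over the ground model: if `c` is a name for an element of `2^ω`,
then below every condition there are a condition `q` and a dense set `D` (in the ground model) of
conditions of Cohen forcing such that `q` forces that no element of `D` is contained in `c`. -/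
def AddsNoCohenReal (P : Type u) [Preorder P] : Prop :=
  ∀ (c : FName P ℕ Bool) (p : P), ∃ q ≤ p, ∃ D : Set Fn2, Fn2.Dense D ∧
    ∀ r ≤ q, ∀ t ∈ D, ¬ ∀ n b, t.1 n = some b → c.dec r n b

/-- Every function from `ω` to the ground model is covered by a sequence of finite sets of the
ground model. -/
def FinitelyCovers (P : Type u) [Preorder P] : Prop :=
  ∀ (X : Type u) (f : FName P ℕ X) (p : P), ∃ q ≤ p, ∃ F : ℕ → Finset X,
    ∀ r ≤ q, ∀ n x, f.dec r n x → x ∈ F n

/-- `T` is a tree: the predecessors of each node are well ordered. -/
def IsTree (T : Type u) [PartialOrder T] : Prop :=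
  ∀ t : T, IsWellOrder {s : T // s < t} (· < ·)

/-- The height of a node is the order type of its predecessors. -/
noncomputable def ht {T : Type u} [PartialOrder T] (h : IsTree T) (t : T) : Ordinal.{u} :=
  haveI := h t
  Ordinal.type (fun a b : {s : T // s < t} => a < b)

/-- Generalized Aronszajn trees: trees of height `ω₁` without uncountable branch. -/
structure GenAronszajn (T : Type u) [PartialOrder T] : Prop where
  tree : IsTree T
  ht_lt : ∀ t, ht tree t < Ordinal.omega 1
  ht_ex : ∀ α < Ordinal.omega 1, ∃ t, ht tree t = α
  branch : ∀ C : Set T, IsMaxChain (· ≤ ·) C → C.Countable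

end Pool.Agent.WAT
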