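import Pool.Agent.WAT.Core
import Pool.Agent.WAT.Names

/-!
# WAT: targets
-/

set_option autoImplicit false

universe u

namespace Pool.Agent.WAT

/-- the hypothesis on the tree -/
structure Hyp (T : Type u) [PartialOrder T] : Prop where
  pred : ∀ t : T, IsChain (· ≤ ·) {s | s < t}
  ctb : ∀ C : Set T, IsChain (· ≤ ·) C → C.Countable

/-- E (extension of the domain above `n` chains) -/
def T_E : Prop := ∀ (T : Type u) [PartialOrder T], Hyp T → ∀ (n : ℕ) (p : Cond T), Lv n p →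
  ∀ U : Set T, Wd n U → ∀ B : Set T, B.Countable →
  ∃ q : Cond T, Le q p ∧ B ⊆ Dm q ∧
    ∀ σ, Vd q.k σ → ∀ z ∈ U, p.l [] z = 0 → q.l σ z ≠ 0 → ∀ x, p.l [] x + n ≤ q.l σ z

/-- KEY (from E, by compactness of the space of `n`-tuples of chains) -/
def T_KEY : Prop := ∀ (T : Type u) [PartialOrder T], Hyp T → ∀ (n : ℕ) (p : Cond T), Lv n p →
  ∀ D : Set (Cond T), (∀ q r, q ∈ D → Le r q → r ∈ D) → (∀ q, Le q p → ∃ r ∈ D, Le r q) →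
  ∀ B : Set T, B.Countable → ∀ X : Finset T, (∀ x ∈ X, x ∈ B) →
  ∃ Q : List (Cond T),
    (∀ q ∈ Q, q ∈ D ∧ Lv (n + 1) q ∧ B ⊆ Dm q ∧ (∀ x ∈ X, q.l [] x ≠ 0) ∧
      ∃ π, IsProj 1 q p π) ∧
    ∀ U : Set T, Wd n U → ∃ q ∈ Q, Good (p.l []) (q.l []) U n

/-- FUS (from KEY, by fusion) -/
def T_FUS : Prop := ∀ (T : Type u) [PartialOrder T], Hyp T → ∀ (p : Cond T)
  (D : ℕ → Set (Cond T)), (∀ i q r, q ∈ D i → Le r q → r ∈ D i) →
  (∀ i q, Le q p → ∃ r ∈ D i, Le r q) →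
  ∃ q : Cond T, Le q p ∧ ∀ i, ∃ R : List (Cond T), (∀ r ∈ R, r ∈ D i) ∧
    ∀ q', Le q' q → ∃ r ∈ R, ∃ s, Le s q' ∧ Le s r

/-- the consequence of FUS in an arbitrary forcing -/
def FF (P : Type u) [Preorder P] : Prop := ∀ (p : P) (D : ℕ → Set P),
  (∀ i q r, q ∈ D i → r ≤ q → r ∈ D i) → (∀ i q, q ≤ p → ∃ r ∈ D i, r ≤ q) →
  ∃ q ≤ p, ∀ i, ∃ R : List P, (∀ r ∈ R, r ∈ D i) ∧ ∀ q' ≤ q, ∃ r ∈ R, ∃ s, s ≤ q' ∧ s ≤ r

/-- COV -/
def T_COV : Prop := ∀ (P : Type u) [Preorder P], FF P → FinitelyCovers P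

/-- OM1 -/
def T_OM1 : Prop := ∀ (P : Type u) [Preorder P], FF P → PreservesOmega1 P

/-- COH -/
def T_COH : Prop := ∀ (P : Type u) [Preorder P], FF P → AddsNoCohenReal P

/-- HYP -/
def T_HYP : Prop := ∀ (T : Type u) [PartialOrder T], GenAronszajn T → Hyp T

end Pool.Agent.WAT
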